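import Pool.Agent.KACG.Hill

/-!
# Squad KACG, row H_MIN: the ground state
-/

open scoped ComplexConjugate ContDiff

noncomputable section

namespace Pool.Agent.KACG.H28

theorem h_min (gau : GauStmt) (arz : ArzStmt) (wek : WekStmt) (reg : RegStmt) : MinStmt := by
  intro L V b hL hV hP
  obtain ⟨h1, ⟨u, hu, hlim⟩, -⟩ := gau L V b hL hV hP
  obtain ⟨B, hB⟩ : ∃ B, ∀ n, enr L V (u n) ≤ B := by
    obtain ⟨B, hB⟩ := hlim.bddAbove_range
    exact ⟨B, fun n => hB ⟨n, rfl⟩⟩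
  obtain ⟨k, v, hk, hvc, hvq, hvm, hunif⟩ := arz L V b B hL hV hP u hu hB
  have hweak := wek L V b (lam L V b + b ^ 2) hL hV hP h1 (fun n => u (k n)) v
    (fun n => hu (k n)) (hlim.comp hk.tendsto_atTop) hunif hvc
  obtain ⟨hs, hsol⟩ := reg L V b (lam L V b + b ^ 2) hL hV hP v hvc hvq hweak
  refine ⟨v, hs, ?_, hvq, hsol⟩
  by_contra h
  push Not at h
  have h0 : mass L v = 0 := by
    unfold mass
    simp [h]
  rw [h0] at hvm
  exact zero_ne_one hvm

end Pool.Agent.KACG.H28
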